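import Pool.Agent.Run7.h177.TA.Iface

/-!
# Piece LIP of project TA: a Lipschitz condition for holomorphic maps of complex tori
-/

set_option autoImplicit false

noncomputable section

namespace Run7.h973.TA

open Filter Topology Metric Run7.h177.TA
open Pool.Agent.TH182.TC (PS Holo HoloAt)

/-! ### The Hermitian product -/

/-- the square of the norm -/
def nn {m : ℕ} (x : Fin m → ℂ) : ℝ := ∑ i, ‖x i‖ ^ 2

/-- the Hermitian product -/
def ip {m : ℕ} (x y : Fin m → ℂ) : ℂ := ∑ i, x i * (starRingEnd ℂ) (y i)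

lemma nn_nonneg {m : ℕ} (x : Fin m → ℂ) : 0 ≤ nn x := Finset.sum_nonneg fun _ _ => by positivity

lemma nn_sub {m : ℕ} (x y : Fin m → ℂ) : nn (x - y) = nn x + nn y - 2 * (ip x y).re := by
  unfold nn ip
  rw [Complex.re_sum, Finset.mul_sum, ← Finset.sum_add_distrib, ← Finset.sum_sub_distrib]
  refine Finset.sum_congr rfl fun i _ => ?_
  rw [Pi.sub_apply, Complex.sq_norm, Complex.sq_norm, Complex.sq_norm, Complex.normSq_sub]

lemma nn_mul_le {m : ℕ} (x y : Fin m → ℂ) :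
    nn x * nn y - ‖ip x y‖ ^ 2 ≤ nn (x - y) * nn y := by
  rw [nn_sub, Complex.sq_norm, Complex.normSq_apply]
  nlinarith [sq_nonneg (nn y - (ip x y).re), sq_nonneg (ip x y).im]

lemma nn_smul {m : ℕ} (a : ℂ) (x : Fin m → ℂ) : nn (a • x) = ‖a‖ ^ 2 * nn x := by
  unfold nn
  rw [Finset.mul_sum]
  refine Finset.sum_congr rfl fun i _ => ?_
  rw [Pi.smul_apply, smul_eq_mul, norm_mul, mul_pow]

lemma ip_smul {m : ℕ} (a b : ℂ) (x y : Fin m → ℂ) :
    ip (a • x) (b • y) = a * (starRingEnd ℂ) b * ip x y := by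
  unfold ip
  rw [Finset.mul_sum]
  refine Finset.sum_congr rfl fun i _ => ?_
  rw [Pi.smul_apply, Pi.smul_apply, smul_eq_mul, smul_eq_mul, map_mul]
  ring

lemma nn_le {m : ℕ} (x : Fin m → ℂ) : nn x ≤ m * ‖x‖ ^ 2 := by
  unfold nn
  refine (Finset.sum_le_card_nsmul _ _ (‖x‖ ^ 2) fun i _ => ?_).trans ?_
  · exact pow_le_pow_left₀ (norm_nonneg _) (norm_le_pi_norm x i) 2
  · rw [Finset.card_univ, Fintype.card_fin, nsmul_eq_mul]

lemma le_nn {m : ℕ} (x : Fin m → ℂ) (i : Fin m) : ‖x i‖ ^ 2 ≤ nn x :=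
  Finset.single_le_sum (f := fun i => ‖x i‖ ^ 2) (fun _ _ => by positivity) (Finset.mem_univ i)

/-! ### The local inequality -/

lemma local_ineq {w n : ℕ} {g : (Fin w → ℂ) → PS n} {z : Fin w → ℂ} (h : HoloAt g z) :
    ∃ C : ℝ, ∀ᶠ U in (𝓝 z).smallSets, ∀ s ∈ U, ∀ t ∈ U,
      (1 - C * ‖s - t‖ ^ 2) * nn (g s).rep * nn (g t).rep ≤ ‖ip (g s).rep (g t).rep‖ ^ 2 := by
  obtain ⟨φ, hφ, hev⟩ := h
  obtain ⟨K, T, hT, hK⟩ := (hφ.contDiffAt (n := 1)).exists_lipschitzOnWith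
  obtain ⟨hz, -⟩ := hev.self_of_nhds
  obtain ⟨i, hi⟩ := Function.ne_iff.mp hz
  have hc : ContinuousAt (fun s => ‖φ s i‖ ^ 2) z := by
    have h1 : ContinuousAt (fun s => φ s i) z := (continuous_apply i).continuousAt.comp hφ.continuousAt
    exact h1.norm.pow 2
  have hpos : 0 < ‖φ z i‖ ^ 2 := by
    have : φ z i ≠ 0 := hi
    positivity
  obtain ⟨c, hc0⟩ : ∃ c, c = ‖φ z i‖ ^ 2 / 2 := ⟨_, rfl⟩
  have hcpos : 0 < c := by rw [hc0]; positivity
  have hbig : ∀ᶠ s in 𝓝 z, c < ‖φ s i‖ ^ 2 :=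
    hc.eventually (lt_mem_nhds (by rw [hc0]; linarith))
  refine ⟨(n + 1) * K ^ 2 / c, ?_⟩
  have hall : ∀ᶠ s in 𝓝 z, s ∈ T ∧ c < ‖φ s i‖ ^ 2 ∧ ∃ h : φ s ≠ 0,
      g s = Projectivization.mk ℂ (φ s) h :=
    (show ∀ᶠ s in 𝓝 z, s ∈ T from hT).and (hbig.and hev)
  rw [eventually_smallSets]
  refine ⟨_, hall, fun U hU s hs t ht => ?_⟩
  obtain ⟨hsT, hsc, hs0, hgs⟩ := hU hs
  obtain ⟨htT, htc, ht0, hgt⟩ := hU ht
  obtain ⟨a, ha⟩ := Projectivization.exists_smul_eq_mk_rep ℂ (φ s) hs0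
  obtain ⟨b, hb⟩ := Projectivization.exists_smul_eq_mk_rep ℂ (φ t) ht0
  rw [hgs, hgt, ← ha, ← hb]
  have e1 : (a • φ s : Fin (n + 1) → ℂ) = (a : ℂ) • φ s := rfl
  have e2 : (b • φ t : Fin (n + 1) → ℂ) = (b : ℂ) • φ t := rfl
  rw [e1, e2, nn_smul, nn_smul, ip_smul, norm_mul, norm_mul, RCLike.norm_conj]
  have h1 := nn_mul_le (φ s) (φ t)
  have h2 : nn (φ s - φ t) ≤ (n + 1) * K ^ 2 * ‖s - t‖ ^ 2 := by
    refine (nn_le _).trans ?_
    have h3 := hK.dist_le_mul s hsT t htT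
    rw [dist_eq_norm, dist_eq_norm] at h3
    push_cast
    have h4 : ‖φ s - φ t‖ ^ 2 ≤ (K * ‖s - t‖) ^ 2 := pow_le_pow_left₀ (norm_nonneg _) h3 2
    nlinarith
  have h3 : c ≤ nn (φ s) := hsc.le.trans (le_nn _ i)
  have h5 : nn (φ s - φ t) ≤ (n + 1) * K ^ 2 / c * ‖s - t‖ ^ 2 * nn (φ s) := by
    have h6 : (n + 1) * (K : ℝ) ^ 2 * ‖s - t‖ ^ 2 =
        ((n + 1) * K ^ 2 / c * ‖s - t‖ ^ 2) * c := by field_simp
    rw [h6] at h2
    exact h2.trans (mul_le_mul_of_nonneg_left h3 (by positivity))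
  have h7 : (1 - (n + 1) * K ^ 2 / c * ‖s - t‖ ^ 2) * nn (φ s) * nn (φ t) ≤
      ‖ip (φ s) (φ t)‖ ^ 2 := by
    have h8 := mul_le_mul_of_nonneg_right h5 (nn_nonneg (φ t))
    nlinarith
  have h9 : 0 ≤ ‖(a : ℂ)‖ ^ 2 * ‖(b : ℂ)‖ ^ 2 := by positivity
  have h10 := mul_le_mul_of_nonneg_left h7 h9
  calc _ = ‖(a : ℂ)‖ ^ 2 * ‖(b : ℂ)‖ ^ 2 *
      ((1 - (n + 1) * K ^ 2 / c * ‖s - t‖ ^ 2) * nn (φ s) * nn (φ t)) := by ring
    _ ≤ _ := h10
    _ = _ := by ring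

/-! ### The global inequality -/

lemma per_span {w n : ℕ} (b : Module.Basis (Fin (2 * w)) ℝ (Fin w → ℂ)) {g : (Fin w → ℂ) → PS n}
    (hg : ∀ z i, g (z + b i) = g z) (z l : Fin w → ℂ)
    (hl : l ∈ Submodule.span ℤ (Set.range b)) : g (z + l) = g z := by
  induction hl using Submodule.span_induction generalizing z with
  | mem x hx =>
    obtain ⟨i, rfl⟩ := hx
    exact hg z i
  | zero => rw [add_zero]
  | add x y _ _ hx hy => rw [← add_assoc, hy, hx]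
  | smul a x _ hx =>
    induction a using Int.induction_on with
    | zero => rw [zero_smul, add_zero]
    | succ k ih => rw [add_smul, one_smul, ← add_assoc, hx, ih]
    | pred k ih =>
      rw [← hx (z + _), add_assoc, sub_smul, one_smul, sub_add_cancel, ih]

theorem t_LIP : S_LIP := by
  intro w n b g hg hper
  by_contra hc
  push Not at hc
  -- violations with constants `k + 1`
  have h1 : ∀ k : ℕ, ∃ s t : Fin w → ℂ,
      ‖ip (g s).rep (g t).rep‖ ^ 2 < (1 - ((k : ℝ) + 1) ^ 2 * ‖s - t‖ ^ 2) * nn (g s).rep *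
        nn (g t).rep := fun k => hc _ (by positivity)
  choose s t hst using h1
  -- translate to the fundamental domain
  obtain ⟨s', hs'⟩ : ∃ s' : ℕ → Fin w → ℂ, s' = fun k => ZSpan.fract b (s k) := ⟨_, rfl⟩
  obtain ⟨t', ht'⟩ : ∃ t' : ℕ → Fin w → ℂ, t' = fun k => t k - ZSpan.floor b (s k) := ⟨_, rfl⟩
  have hgs : ∀ k, g (s' k) = g (s k) := by
    intro k
    have h2 := per_span b hper (s' k) _ (ZSpan.floor b (s k)).2
    rw [← h2, hs']
    simp only [ZSpan.fract_apply, sub_add_cancel]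
  have hgt : ∀ k, g (t' k) = g (t k) := by
    intro k
    have h2 := per_span b hper (t' k) _ (ZSpan.floor b (s k)).2
    rw [← h2, ht']
    simp only [sub_add_cancel]
  have hd : ∀ k, s' k - t' k = s k - t k := by
    intro k
    rw [hs', ht']
    simp only [ZSpan.fract_apply, sub_sub_sub_cancel_right]
  have hpos : ∀ k : ℕ, 0 < 1 - ((k : ℝ) + 1) ^ 2 * ‖s k - t k‖ ^ 2 := by
    intro k
    by_contra hneg
    push Not at hneg
    have h2 : (1 - ((k : ℝ) + 1) ^ 2 * ‖s k - t k‖ ^ 2) * nn (g (s k)).rep * nn (g (t k)).rep ≤ 0 :=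
      mul_nonpos_of_nonpos_of_nonneg (mul_nonpos_of_nonpos_of_nonneg hneg (nn_nonneg _))
        (nn_nonneg _)
    have h3 := hst k
    have h4 : 0 ≤ ‖ip (g (s k)).rep (g (t k)).rep‖ ^ 2 := by positivity
    linarith
  have hsmall : ∀ k : ℕ, ‖s k - t k‖ ≤ 1 / ((k : ℝ) + 1) := by
    intro k
    have h2 := hpos k
    have h3 : (((k : ℝ) + 1) * ‖s k - t k‖) ^ 2 < 1 ^ 2 := by rw [mul_pow]; linarith
    have h4 : ((k : ℝ) + 1) * ‖s k - t k‖ < 1 := lt_of_pow_lt_pow_left₀ 2 zero_le_one h3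
    rw [le_div_iff₀ (by positivity), mul_comm]
    exact h4.le
  obtain ⟨R, hR⟩ := (ZSpan.fundamentalDomain_isBounded b).subset_closedBall 0
  obtain ⟨z, -, ψ, hψ, hz⟩ := (isCompact_closedBall (0 : Fin w → ℂ) R).tendsto_subseq
    (x := s') fun k => hR (by rw [hs']; exact ZSpan.fract_mem_fundamentalDomain b (s k))
  have hz' : Tendsto (t' ∘ ψ) atTop (𝓝 z) := by
    have h2 : Tendsto (fun k => s' (ψ k) - t' (ψ k)) atTop (𝓝 0) := by
      refine squeeze_zero_norm (a := fun k => 1 / ((ψ k : ℝ) + 1)) (fun k => ?_) ?_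
      · rw [hd]; exact hsmall _
      · exact tendsto_one_div_add_atTop_nhds_zero_nat.comp hψ.tendsto_atTop
    have h3 := hz.sub h2
    rw [sub_zero] at h3
    exact h3.congr fun k => by simp
  obtain ⟨C, hC⟩ := local_ineq (hg z)
  rw [eventually_smallSets] at hC
  obtain ⟨U, hU, hCU⟩ := hC
  have h2 := hz.eventually (show ∀ᶠ x in 𝓝 z, x ∈ U from hU)
  have h3 := hz'.eventually (show ∀ᶠ x in 𝓝 z, x ∈ U from hU)
  obtain ⟨k₀, hk₀⟩ := exists_nat_ge C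
  obtain ⟨k, hk1, hk2, hk3⟩ := (h2.and (h3.and (eventually_ge_atTop k₀))).exists
  have h4 := hCU U subset_rfl _ hk1 _ hk2
  simp only [Function.comp] at h4
  rw [hgs, hgt, hd] at h4
  have h5 := hst (ψ k)
  have h6 : C ≤ ((ψ k : ℝ) + 1) ^ 2 := by
    have h7 : (k₀ : ℝ) ≤ ψ k := by exact_mod_cast hk3.trans (hψ.id_le k)
    have h8 : (0 : ℝ) ≤ ψ k := Nat.cast_nonneg _
    nlinarith
  have h7 : (1 - ((ψ k : ℝ) + 1) ^ 2 * ‖s (ψ k) - t (ψ k)‖ ^ 2) * nn (g (s (ψ k))).rep *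
      nn (g (t (ψ k))).rep ≤ (1 - C * ‖s (ψ k) - t (ψ k)‖ ^ 2) * nn (g (s (ψ k))).rep *
      nn (g (t (ψ k))).rep := by
    refine mul_le_mul_of_nonneg_right (mul_le_mul_of_nonneg_right ?_ (nn_nonneg _)) (nn_nonneg _)
    have := mul_le_mul_of_nonneg_right h6 (sq_nonneg ‖s (ψ k) - t (ψ k)‖)
    linarith
  linarith

end Run7.h973.TA
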